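import Pool.Agent.PEN.Fin

/-!
# MP_bf7174_co: thinnest covering of three-space by equal balls

The body-centred cubic covering is optimal among all coverings, lattice or not, with at most six
Delaunay tetrahedra per centre on average, each of which has at least two edges lying in at most four
tetrahedra; more precisely, each tetrahedron with no such edge may be counted as `1 + 1/13` tetrahedra
and each one with exactly one as `1 + 1/26`.

Let `X` be a set of points, `r > 0`, and let `D` be a face-to-face decomposition of three-space into
tetrahedra with vertices in `X` all of which have circumradius at most `r`. (If the balls of radius `r` about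
the points of `X` cover space, then the Delaunay tetrahedra of `X` have this property.) For `t ∈ D` let
`sh D t` be the number of edges of `t` which lie in at most four tetrahedra of `D` (for the Delaunay
triangulation: the edges whose Voronoi face has at most four sides). If
`#T + #{sh = 0} / 13 + #{sh = 1} / 26 ≤ τ #X` in all large windows, then the lower density of the balls is at
least `6 / τ` times `5 √5 π / 24`; for `τ = 6` this is the density of the body-centred cubic covering.
The windows are the balls or the cubes centred at the origin. No periodicity is assumed.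

The proof rests on the inequality `vol T ≤ 5 c + c ∑ (π/2 - θ)`, `c = 16 √5 / 375`, for tetrahedra inscribed
in the unit sphere, the sum being over any set of at least two of the six dihedral angles, with
equality for the tetrahedron of the body-centred cubic lattice.
-/

set_option autoImplicit false

namespace Pool.Agent.Results.MP_bf7174_co.ShortEdges

open BccCov BccP

theorem result (X : Set (EuclideanSpace ℝ (Fin 3))) (r : ℝ) (hr : 0 < r)
    (D : Set (Finset (EuclideanSpace ℝ (Fin 3))))
    (hT : IsTriangulation X D) (hI : ∀ t ∈ D, Inscribed t r)
    (τ : ℝ) (hτ : 0 < τ)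
    (W : ℝ → Set (EuclideanSpace ℝ (Fin 3)))
    (hW : (∀ R, W R = Metric.closedBall 0 R) ∨ (∀ R, W R = {x | ∀ i, |x i| ≤ R}))
    (h : ∀ᶠ R in Filter.atTop,
      (({t | t ∈ D ∧ (t : Set (EuclideanSpace ℝ (Fin 3))) ⊆ W R}.ncard : ℕ) : ℝ) +
        (({t | t ∈ D ∧ (t : Set (EuclideanSpace ℝ (Fin 3))) ⊆ W R ∧ sh D t = 0}.ncard : ℕ) : ℝ) / 13 +
        (({t | t ∈ D ∧ (t : Set (EuclideanSpace ℝ (Fin 3))) ⊆ W R ∧ sh D t = 1}.ncard : ℕ) : ℝ) / 26
        ≤ τ * (((X ∩ W R).ncard : ℕ) : ℝ)) :
    ENNReal.ofReal (6 / τ * (5 * Real.sqrt 5 * Real.pi / 24)) ≤
      Filter.liminf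
        (fun R : ℝ =>
          ENat.toENNReal (X ∩ W R).encard *
            MeasureTheory.volume (Metric.closedBall (0 : EuclideanSpace ℝ (Fin 3)) r) /
            MeasureTheory.volume (W R))
        Filter.atTop :=
  short_final X r hr D hT hI τ hτ W hW h

end Pool.Agent.Results.MP_bf7174_co.ShortEdges
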